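import Pool.Agent.Y502.CG.Retract2

/-!
# Groups with a rational and a transcendental complete growth series
-/

set_option autoImplicit false

namespace Pool.Agent.Y502.CG

open PoolH322CG PowerSeries

section free

variable {α β : Type} (ι : α → β)

open Classical in
/-- the retraction of free groups -/
noncomputable def fret : FreeGroup β →* FreeGroup α :=
  FreeGroup.lift fun b => if h : ∃ a, ι a = b then FreeGroup.of h.choose else 1

lemma fret_map (hι : Function.Injective ι) (x : FreeGroup α) : fret ι (FreeGroup.map ι x) = x := by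
  classical
  have h : (fret ι).comp (FreeGroup.map ι) = MonoidHom.id _ := by
    ext a
    have he : ∃ a', ι a' = ι a := ⟨a, rfl⟩
    show fret ι (FreeGroup.map ι (FreeGroup.of a)) = FreeGroup.of a
    rw [FreeGroup.map.of, fret, FreeGroup.lift_apply_of, dif_pos he, hι he.choose_spec]
  exact DFunLike.congr_fun h x

end free

lemma exists_inj {n : ℕ} (hn : 2 ≤ n) : ∃ f : Bool → Fin n, Function.Injective f := by
  have h : Fintype.card Bool ≤ Fintype.card (Fin n) := by
    rw [Fintype.card_fin]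
    exact le_trans (by decide) hn
  obtain ⟨f⟩ := Function.Embedding.nonempty_of_card_le h
  exact ⟨f, f.injective⟩

/-- products of two free groups and a group -/
theorem exists_two {m n : ℕ} (hm : 2 ≤ m) (hn : 2 ≤ n) {H : Type} [Group H] (T : Finset H)
    (hT : Subgroup.closure (T : Set H) = ⊤) (hr : CG T ∈ RatSub (MonoidAlgebra ℤ H)) :
    ∃ S₁ S₂ : Finset (FreeGroup (Fin m) × FreeGroup (Fin n) × H),
      Subgroup.closure (S₁ : Set (FreeGroup (Fin m) × FreeGroup (Fin n) × H)) = ⊤ ∧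
      Subgroup.closure (S₂ : Set (FreeGroup (Fin m) × FreeGroup (Fin n) × H)) = ⊤ ∧
      CG S₁ ∈ RatSub (MonoidAlgebra ℤ (FreeGroup (Fin m) × FreeGroup (Fin n) × H)) ∧
      ¬ IsAlg (CG S₂) := by
  have h1 := closure_pset (closure_fset (Fin m)) (closure_pset (closure_fset (Fin n)) hT)
  have h2 : CG (pset (fset (Fin m)) (pset (fset (Fin n)) T)) ∈
      RatSub (MonoidAlgebra ℤ (FreeGroup (Fin m) × FreeGroup (Fin n) × H)) :=
    CG_pset_mem CG_fset_mem (CG_pset_mem CG_fset_mem hr)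
  obtain ⟨f, hf⟩ := exists_inj hm
  obtain ⟨g, hg⟩ := exists_inj hn
  let π : FreeGroup (Fin m) × FreeGroup (Fin n) × H →* G22 :=
    MonoidHom.prod ((fret f).comp (MonoidHom.fst _ _))
      ((fret g).comp ((MonoidHom.fst _ _).comp (MonoidHom.snd _ _)))
  let σ : G22 →* FreeGroup (Fin m) × FreeGroup (Fin n) × H :=
    MonoidHom.prod ((FreeGroup.map f).comp (MonoidHom.fst _ _))
      (MonoidHom.prod ((FreeGroup.map g).comp (MonoidHom.snd _ _)) 1)
  have sec : ∀ x, π (σ x) = x := by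
    rintro ⟨x, y⟩
    exact Prod.ext (fret_map f hf x) (fret_map g hg y)
  obtain ⟨S, hS1, hS2⟩ := exists_transcendental2 _ h1 π σ sec
  exact ⟨_, S, h1, hS1, h2, hS2⟩

/-- products of two free groups -/
theorem exists_two' {m n : ℕ} (hm : 2 ≤ m) (hn : 2 ≤ n) :
    ∃ S₁ S₂ : Finset (FreeGroup (Fin m) × FreeGroup (Fin n)),
      Subgroup.closure (S₁ : Set (FreeGroup (Fin m) × FreeGroup (Fin n))) = ⊤ ∧
      Subgroup.closure (S₂ : Set (FreeGroup (Fin m) × FreeGroup (Fin n))) = ⊤ ∧
      CG S₁ ∈ RatSub (MonoidAlgebra ℤ (FreeGroup (Fin m) × FreeGroup (Fin n))) ∧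
      ¬ IsAlg (CG S₂) := by
  have h1 := closure_pset (closure_fset (Fin m)) (closure_fset (Fin n))
  have h2 : CG (pset (fset (Fin m)) (fset (Fin n))) ∈
      RatSub (MonoidAlgebra ℤ (FreeGroup (Fin m) × FreeGroup (Fin n))) :=
    CG_pset_mem CG_fset_mem CG_fset_mem
  obtain ⟨f, hf⟩ := exists_inj hm
  obtain ⟨g, hg⟩ := exists_inj hn
  let π : FreeGroup (Fin m) × FreeGroup (Fin n) →* G22 :=
    MonoidHom.prod ((fret f).comp (MonoidHom.fst _ _)) ((fret g).comp (MonoidHom.snd _ _))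
  let σ : G22 →* FreeGroup (Fin m) × FreeGroup (Fin n) :=
    MonoidHom.prod ((FreeGroup.map f).comp (MonoidHom.fst _ _))
      ((FreeGroup.map g).comp (MonoidHom.snd _ _))
  have sec : ∀ x, π (σ x) = x := by
    rintro ⟨x, y⟩
    exact Prod.ext (fret_map f hf x) (fret_map g hg y)
  obtain ⟨S, hS1, hS2⟩ := exists_transcendental2 _ h1 π σ sec
  exact ⟨_, S, h1, hS1, h2, hS2⟩

/-- groups which retract onto `F₂ × F₂` -/
theorem exists_of_retract {G : Type} [Group G] (hG : Group.FG G)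
    (i : FreeGroup (Fin 2) × FreeGroup (Fin 2) →* G)
    (r : G →* FreeGroup (Fin 2) × FreeGroup (Fin 2)) (h : ∀ x, r (i x) = x) :
    ∃ S : Finset G, Subgroup.closure (S : Set G) = ⊤ ∧ ¬ IsAlg (CG S) := by
  obtain ⟨_, A, -, hA⟩ := Group.fg_iff'.1 hG
  let c : G22 ≃* FreeGroup (Fin 2) × FreeGroup (Fin 2) :=
    MulEquiv.prodCongr (FreeGroup.freeGroupCongr finTwoEquiv.symm)
      (FreeGroup.freeGroupCongr finTwoEquiv.symm)
  refine exists_transcendental2 A hA (c.symm.toMonoidHom.comp r) (i.comp c.toMonoidHom)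
    fun x => ?_
  show c.symm (r (i (c x))) = x
  rw [h, MulEquiv.symm_apply_apply]

end Pool.Agent.Y502.CG
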