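import Pool.Agent.H322R3.CGRat

/-!
# The complete growth series of a direct product, and of a free group
-/

set_option autoImplicit false

namespace Pool.Agent.Y502.CG

open PoolH322CG PowerSeries

section prod

variable {A B : Type} [Group A] [Group B]

open Classical in
/-- the generating set of a direct product -/
noncomputable def pset (S : Finset A) (T : Finset B) : Finset (A × B) :=
  S.image (fun a => (a, (1 : B))) ∪ T.image (fun b => ((1 : A), b))

lemma mem_pset {S : Finset A} {T : Finset B} {x : A × B} :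
    x ∈ pset S T ↔ (x.1 ∈ S ∧ x.2 = 1) ∨ (x.1 = 1 ∧ x.2 ∈ T) := by
  classical
  rw [pset, Finset.mem_union, Finset.mem_image, Finset.mem_image]
  constructor
  · rintro (⟨a, ha, rfl⟩ | ⟨b, hb, rfl⟩)
    · exact Or.inl ⟨ha, rfl⟩
    · exact Or.inr ⟨rfl, hb⟩
  · rcases x with ⟨a, b⟩
    rintro (⟨h1, h2⟩ | ⟨h1, h2⟩)
    · simp only at h1 h2
      exact Or.inl ⟨a, h1, by rw [h2]⟩
    · simp only at h1 h2
      exact Or.inr ⟨b, h2, by rw [h1]⟩

lemma closure_pset {S : Finset A} {T : Finset B} (hS : Subgroup.closure (S : Set A) = ⊤)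
    (hT : Subgroup.closure (T : Set B) = ⊤) :
    Subgroup.closure (pset S T : Set (A × B)) = ⊤ := by
  have h1 : (⊤ : Subgroup A) ≤
      (Subgroup.closure (pset S T : Set (A × B))).comap (MonoidHom.inl A B) := by
    rw [← hS, Subgroup.closure_le]
    intro a ha
    apply Subgroup.subset_closure
    exact mem_pset.2 (Or.inl ⟨ha, rfl⟩)
  have h2 : (⊤ : Subgroup B) ≤
      (Subgroup.closure (pset S T : Set (A × B))).comap (MonoidHom.inr A B) := by
    rw [← hT, Subgroup.closure_le]
    intro b hb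
    apply Subgroup.subset_closure
    exact mem_pset.2 (Or.inr ⟨rfl, hb⟩)
  rw [eq_top_iff]
  rintro ⟨a, b⟩ -
  have h3 := (Subgroup.closure (pset S T : Set (A × B))).mul_mem (h1 (Subgroup.mem_top a))
    (h2 (Subgroup.mem_top b))
  simpa using h3

lemma mem_pset_or {S : Finset A} {T : Finset B} {x : A × B} (hx : x ∈ pset S T ∨ x⁻¹ ∈ pset S T) :
    ((x.1 ∈ S ∨ x.1⁻¹ ∈ S) ∧ x.2 = 1) ∨ (x.1 = 1 ∧ (x.2 ∈ T ∨ x.2⁻¹ ∈ T)) := by
  rw [mem_pset, mem_pset] at hx
  rcases hx with (⟨h1, h2⟩ | ⟨h1, h2⟩) | (⟨h1, h2⟩ | ⟨h1, h2⟩)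
  · exact Or.inl ⟨Or.inl h1, h2⟩
  · exact Or.inr ⟨h1, Or.inl h2⟩
  · exact Or.inl ⟨Or.inr h1, inv_eq_one.1 h2⟩
  · exact Or.inr ⟨inv_eq_one.1 h1, Or.inr h2⟩

lemma isProd_pset_of {S : Finset A} {T : Finset B} {k l : ℕ} {a : A} {b : B}
    (ha : IsProd S k a) (hb : IsProd T l b) : IsProd (pset S T) (k + l) (a, b) := by
  obtain ⟨L, h1, h2, h3⟩ := ha
  obtain ⟨M, h4, h5, h6⟩ := hb
  refine ⟨(L.map fun x => ((x, 1) : A × B)) ++ (M.map fun y => ((1, y) : A × B)), ?_, ?_, ?_⟩
  · rw [List.length_append, List.length_map, List.length_map, h1, h4]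
  · intro x hx
    rw [List.mem_append, List.mem_map, List.mem_map] at hx
    rcases hx with ⟨c, hc, rfl⟩ | ⟨c, hc, rfl⟩
    · rcases h2 c hc with h | h
      · exact Or.inl (mem_pset.2 (Or.inl ⟨h, rfl⟩))
      · exact Or.inr (mem_pset.2 (Or.inl ⟨h, inv_one⟩))
    · rcases h5 c hc with h | h
      · exact Or.inl (mem_pset.2 (Or.inr ⟨rfl, h⟩))
      · exact Or.inr (mem_pset.2 (Or.inr ⟨inv_one, h⟩))
  · have e1 : ∀ L : List A, (L.map fun x => ((x, 1) : A × B)).prod = (L.prod, 1) := by
      intro L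
      induction L with
      | nil => rfl
      | cons x L ih => rw [List.map_cons, List.prod_cons, ih, List.prod_cons]; simp
    have e2 : ∀ L : List B, (L.map fun x => ((1, x) : A × B)).prod = (1, L.prod) := by
      intro L
      induction L with
      | nil => rfl
      | cons x L ih => rw [List.map_cons, List.prod_cons, ih, List.prod_cons]; simp
    rw [List.prod_append, e1, e2, h3, h6]
    simp

lemma exists_of_isProd_pset {S : Finset A} {T : Finset B} {n : ℕ} {x : A × B}
    (h : IsProd (pset S T) n x) : ∃ k l, k + l = n ∧ IsProd S k x.1 ∧ IsProd T l x.2 := by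
  obtain ⟨L, h1, h2, rfl⟩ := h
  induction L generalizing n with
  | nil =>
    simp only [List.length_nil] at h1
    subst h1
    exact ⟨0, 0, rfl, ⟨[], rfl, by simp, by simp⟩, ⟨[], rfl, by simp, by simp⟩⟩
  | cons x L ih =>
    obtain ⟨k, l, e, ⟨M, m1, m2, m3⟩, ⟨N, n1, n2, n3⟩⟩ := ih (n := L.length) rfl
      (fun y hy => h2 y (by simp [hy]))
    rw [List.length_cons] at h1
    rcases mem_pset_or (h2 x (by simp)) with ⟨g1, g2⟩ | ⟨g1, g2⟩
    · refine ⟨k + 1, l, by omega, ⟨x.1 :: M, by simp [m1], ?_, ?_⟩, ⟨N, n1, n2, ?_⟩⟩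
      · intro y hy
        rcases List.mem_cons.1 hy with rfl | hy
        · exact g1
        · exact m2 y hy
      · rw [List.prod_cons, List.prod_cons, m3]
        rfl
      · rw [List.prod_cons, n3]
        show L.prod.2 = x.2 * L.prod.2
        rw [g2, one_mul]
    · refine ⟨k, l + 1, by omega, ⟨M, m1, m2, ?_⟩, ⟨x.2 :: N, by simp [n1], ?_, ?_⟩⟩
      · rw [List.prod_cons, m3]
        show L.prod.1 = x.1 * L.prod.1
        rw [g1, one_mul]
      · intro y hy
        rcases List.mem_cons.1 hy with rfl | hy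
        · exact g2
        · exact n2 y hy
      · rw [List.prod_cons, List.prod_cons, n3]
        rfl

lemma exists_sphere {A : Type} [Group A] {S : Finset A} {n : ℕ} {a : A} (h : IsProd S n a) :
    ∃ k ≤ n, a ∈ sphere S k := by
  classical
  have he : ∃ k, IsProd S k a := ⟨n, h⟩
  exact ⟨Nat.find he, Nat.find_min' he h, Nat.find_spec he, fun j hj => Nat.find_min he hj⟩

lemma sphere_le {A : Type} [Group A] {S : Finset A} {k n : ℕ} {a : A} (h1 : a ∈ sphere S k)
    (h2 : IsProd S n a) : k ≤ n := by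
  by_contra h
  exact h1.2 n (by omega) h2

lemma sphere_unique {A : Type} [Group A] {S : Finset A} {k n : ℕ} {a : A} (h1 : a ∈ sphere S k)
    (h2 : a ∈ sphere S n) : k = n :=
  le_antisymm (sphere_le h1 h2.1) (sphere_le h2 h1.1)

lemma mem_sphere_pset {S : Finset A} {T : Finset B} {n : ℕ} {x : A × B} :
    x ∈ sphere (pset S T) n ↔ ∃ k l, k + l = n ∧ x.1 ∈ sphere S k ∧ x.2 ∈ sphere T l := by
  constructor
  · rintro ⟨h1, h2⟩
    obtain ⟨k, l, e, h3, h4⟩ := exists_of_isProd_pset h1
    obtain ⟨k', hk', h5⟩ := exists_sphere h3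
    obtain ⟨l', hl', h6⟩ := exists_sphere h4
    have h7 : IsProd (pset S T) (k' + l') x := isProd_pset_of h5.1 h6.1
    have h8 : n ≤ k' + l' := by
      by_contra hcon
      exact h2 _ (by omega) h7
    exact ⟨k', l', by omega, h5, h6⟩
  · rintro ⟨k, l, rfl, h1, h2⟩
    refine ⟨isProd_pset_of h1.1 h2.1, fun j hj hcon => ?_⟩
    obtain ⟨k', l', e, h3, h4⟩ := exists_of_isProd_pset hcon
    have h5 := sphere_le h1 h3
    have h6 := sphere_le h2 h4
    omega

/-- group ring of the first factor -/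
noncomputable def jl (A B : Type) [Group A] [Group B] : MonoidAlgebra ℤ A →+* MonoidAlgebra ℤ (A × B) :=
  MonoidAlgebra.mapDomainRingHom ℤ (MonoidHom.inl A B)

/-- group ring of the second factor -/
noncomputable def jr (A B : Type) [Group A] [Group B] : MonoidAlgebra ℤ B →+* MonoidAlgebra ℤ (A × B) :=
  MonoidAlgebra.mapDomainRingHom ℤ (MonoidHom.inr A B)

lemma jl_of (a : A) : jl A B (MonoidAlgebra.of ℤ A a) = MonoidAlgebra.of ℤ (A × B) (a, 1) := by
  simp [jl]

lemma jr_of (b : B) : jr A B (MonoidAlgebra.of ℤ B b) = MonoidAlgebra.of ℤ (A × B) (1, b) := by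
  simp [jr]

theorem CG_pset (S : Finset A) (T : Finset B) :
    CG (pset S T) = PowerSeries.map (jl A B) (CG S) * PowerSeries.map (jr A B) (CG T) := by
  classical
  ext1 n
  rw [coeff_CG, PowerSeries.coeff_mul]
  have hset : (sphere_finite (pset S T) n).toFinset =
      (Finset.HasAntidiagonal.antidiagonal n).biUnion (fun p =>
        (sphere_finite S p.1).toFinset ×ˢ (sphere_finite T p.2).toFinset) := by
    ext x
    rw [Set.Finite.mem_toFinset, mem_sphere_pset, Finset.mem_biUnion]
    constructor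
    · rintro ⟨k, l, e, h1, h2⟩
      exact ⟨(k, l), Finset.HasAntidiagonal.mem_antidiagonal.2 e, Finset.mem_product.2
        ⟨(Set.Finite.mem_toFinset _).2 h1, (Set.Finite.mem_toFinset _).2 h2⟩⟩
    · rintro ⟨p, hp, h⟩
      obtain ⟨h1, h2⟩ := Finset.mem_product.1 h
      exact ⟨p.1, p.2, Finset.HasAntidiagonal.mem_antidiagonal.1 hp,
        (Set.Finite.mem_toFinset _).1 h1, (Set.Finite.mem_toFinset _).1 h2⟩
  rw [hset, Finset.sum_biUnion]
  · refine Finset.sum_congr rfl fun p _ => ?_
    rw [PowerSeries.coeff_map, PowerSeries.coeff_map, coeff_CG, coeff_CG, map_sum, map_sum,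
      Finset.sum_mul_sum, ← Finset.sum_product']
    refine Finset.sum_congr rfl fun x _ => ?_
    rw [jl_of, jr_of, ← map_mul]
    simp
  · intro p _ q _ hpq
    rw [Function.onFun, Finset.disjoint_left]
    intro x h1 h2
    apply hpq
    obtain ⟨h3, h4⟩ := Finset.mem_product.1 h1
    obtain ⟨h5, h6⟩ := Finset.mem_product.1 h2
    exact Prod.ext (sphere_unique ((Set.Finite.mem_toFinset _).1 h3) ((Set.Finite.mem_toFinset _).1 h5))
      (sphere_unique ((Set.Finite.mem_toFinset _).1 h4) ((Set.Finite.mem_toFinset _).1 h6))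

end prod

section rat

variable {R R' : Type} [Ring R] [Ring R']

lemma poly_mem {A : R⟦X⟧} (h : IsPoly A) : A ∈ RatSub R := by
  rw [RatSub, Subring.mem_sInf]
  rintro T ⟨hT, -⟩
  exact hT A h

lemma star_mem {A : R⟦X⟧} (h : A ∈ RatSub R) (h0 : PowerSeries.constantCoeff A = 0) :
    kleeneStar A ∈ RatSub R := by
  rw [RatSub, Subring.mem_sInf] at h ⊢
  rintro T hT
  exact hT.2 A (h T hT) h0

lemma map_star (f : R →+* R') (A : R⟦X⟧) :
    PowerSeries.map f (kleeneStar A) = kleeneStar (PowerSeries.map f A) := by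
  ext n
  rw [PowerSeries.coeff_map, kleeneStar, kleeneStar, coeff_mk, coeff_mk, ← PowerSeries.coeff_map,
    map_sum]
  simp only [map_pow]

lemma map_mem (f : R →+* R') {A : R⟦X⟧} (h : A ∈ RatSub R) :
    PowerSeries.map f A ∈ RatSub R' := by
  have h1 : RatSub R ≤ (RatSub R').comap (PowerSeries.map f) := by
    apply sInf_le
    refine ⟨?_, ?_⟩
    · rintro B ⟨N, hN⟩
      refine poly_mem ⟨N, fun n hn => ?_⟩
      rw [PowerSeries.coeff_map, hN n hn, map_zero]
    · intro B hB hB0
      rw [Subring.mem_comap, map_star]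
      refine star_mem hB ?_
      rw [← PowerSeries.coeff_zero_eq_constantCoeff_apply, PowerSeries.coeff_map,
        PowerSeries.coeff_zero_eq_constantCoeff_apply, hB0, map_zero]
  exact h1 h

theorem CG_pset_mem {A B : Type} [Group A] [Group B] {S : Finset A} {T : Finset B}
    (h1 : CG S ∈ RatSub (MonoidAlgebra ℤ A)) (h2 : CG T ∈ RatSub (MonoidAlgebra ℤ B)) :
    CG (pset S T) ∈ RatSub (MonoidAlgebra ℤ (A × B)) := by
  rw [CG_pset]
  exact mul_mem (map_mem _ h1) (map_mem _ h2)

end rat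

section free

variable (α : Type) [Fintype α] [DecidableEq α]

/-- the free generators -/
def fset : Finset (FreeGroup α) := Finset.univ.image FreeGroup.of

lemma closure_fset : Subgroup.closure (fset α : Set (FreeGroup α)) = ⊤ := by
  rw [fset, Finset.coe_image, Finset.coe_univ, Set.image_univ]
  exact FreeGroup.closure_range_of α

variable {α}

lemma norm_fset (x : FreeGroup α) (hx : x ∈ fset α ∨ x⁻¹ ∈ fset α) : x.norm = 1 := by
  have key : ∀ z : FreeGroup α, z ∈ fset α → z.norm = 1 := by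
    intro z hz
    rw [fset, Finset.mem_image] at hz
    obtain ⟨x, -, rfl⟩ := hz
    simp
  rcases hx with hx | hx
  · exact key x hx
  · have h := key _ hx
    rwa [FreeGroup.norm_inv_eq] at h

lemma norm_le_of_isProd {n : ℕ} {g : FreeGroup α} (h : IsProd (fset α) n g) : g.norm ≤ n := by
  obtain ⟨l, hl, hS, rfl⟩ := h
  rw [← hl]
  clear hl
  induction l with
  | nil => simp
  | cons x l ih =>
    rw [List.prod_cons, List.length_cons]
    have h1 := FreeGroup.norm_mul_le x l.prod
    have h2 := norm_fset x (hS x (by simp))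
    have h3 := ih (fun y hy => hS y (by simp [hy]))
    omega

lemma prod_letter (L : List (α × Bool)) : (L.map letter).prod = FreeGroup.mk L := by
  induction L with
  | nil => rfl
  | cons s L ih =>
    rw [List.map_cons, List.prod_cons, ih, letter, FreeGroup.mul_mk]
    rfl

lemma isProd_norm (g : FreeGroup α) : IsProd (fset α) g.norm g := by
  refine ⟨g.toWord.map letter, by rw [List.length_map]; rfl, ?_, ?_⟩
  · intro x hx
    rw [List.mem_map] at hx
    obtain ⟨⟨a, c⟩, -, rfl⟩ := hx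
    cases c
    · right
      rw [fset]
      refine Finset.mem_image.2 ⟨a, Finset.mem_univ _, ?_⟩
      simp [letter, FreeGroup.of, FreeGroup.inv_mk, FreeGroup.invRev]
    · left
      rw [fset]
      exact Finset.mem_image.2 ⟨a, Finset.mem_univ _, rfl⟩
  · rw [prod_letter, FreeGroup.mk_toWord]

lemma sphere_fset (n : ℕ) (g : FreeGroup α) : g ∈ sphere (fset α) n ↔ g.norm = n := by
  constructor
  · rintro ⟨h1, h2⟩
    have h3 := norm_le_of_isProd h1
    rcases lt_or_eq_of_le h3 with h | h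
    · exact absurd (isProd_norm g) (h2 _ h)
    · exact h
  · rintro rfl
    refine ⟨isProd_norm g, fun k hk h => ?_⟩
    have := norm_le_of_isProd h
    omega

lemma CG_fset : CG (fset α) = PF α := by
  ext1 n
  rw [coeff_CG, PF, PowerSeries.coeff_mk]
  have hset : (sphere_finite (fset α) n).toFinset = (sph_finite α n).toFinset := by
    ext g
    rw [Set.Finite.mem_toFinset, Set.Finite.mem_toFinset, sphere_fset]
    rfl
  rw [hset]
  refine Finset.sum_congr rfl fun g _ => ?_
  rfl

theorem CG_fset_mem : CG (fset α) ∈ RatSub (MonoidAlgebra ℤ (FreeGroup α)) := by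
  rw [CG_fset]
  refine mem_ratSub_of ?_ ?_ ?_ PF_rel
  · simp
  · refine ⟨3, fun n hn => ?_⟩
    rw [map_sub, coeff_C_mul, coeff_C_mul, coeff_X, coeff_X_pow, if_neg (by omega), if_neg (by omega)]
    simp
  · refine ⟨3, fun n hn => ?_⟩
    rw [map_sub, coeff_one, coeff_X_pow, if_neg (by omega), if_neg (by omega)]
    simp

end free

end Pool.Agent.Y502.CG
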