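import Pool.Agent.H322R3.CGFinal
import Pool.Agent.Y502.CG.Product

/-!
# A prefix code, an automaton and a representation of `F₂`
-/

set_option autoImplicit false

namespace Pool.Agent.Y502.CG

open PoolH322CG PowerSeries

/-- a prefix code: `b ↦ c`, the other letters are sent to `a c ^ i a`, where `a = true` and
`c = false` -/
def cw : Let → List Bool
  | .b => [false]
  | .d => [true, true]
  | .e => [true, false, true]
  | .p => [true, false, false, true]
  | .y false => [true, false, false, false, true]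
  | .y true => [true, false, false, false, false, true]

lemma cw_prefix (x y : Let) (r r' : List Bool) (h : cw x ++ r = cw y ++ r') : x = y ∧ r = r' := by
  rcases x with _ | _ | _ | _ | (_ | _) <;> rcases y with _ | _ | _ | _ | (_ | _) <;>
    simp [cw] at h ⊢ <;> exact h

lemma cw_ne (x : Let) : cw x ≠ [] := by
  rcases x with _ | _ | _ | _ | (_ | _) <;> simp [cw]

lemma cw_inj : ∀ l l' : List Let, l.flatMap cw = l'.flatMap cw → l = l'
  | [], [], _ => rfl
  | [], x :: l', h => by
    rw [List.flatMap_cons, List.flatMap_nil] at h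
    exact absurd (List.append_eq_nil_iff.1 h.symm).1 (cw_ne x)
  | x :: l, [], h => by
    rw [List.flatMap_cons, List.flatMap_nil] at h
    exact absurd (List.append_eq_nil_iff.1 h).1 (cw_ne x)
  | x :: l, y :: l', h => by
    rw [List.flatMap_cons, List.flatMap_cons] at h
    obtain ⟨h1, h2⟩ := cw_prefix _ _ _ _ h
    rw [h1, cw_inj l l' h2]

/-- the states of the automaton -/
abbrev Q : Type := Fin 7 × Option (Fin 5)

/-- the letter with the code word `a c ^ k a` -/
def ltr : Fin 5 → Let
  | 0 => .d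
  | 1 => .e
  | 2 => .p
  | 3 => .y false
  | 4 => .y true

/-- transitions: in the state `(i, some k)` the word `a c ^ k` was read after the state `i` -/
def st : Q → Bool → Option Q
  | (i, none), false => (step i .b).map fun j => (j, none)
  | (i, none), true => some (i, some 0)
  | (i, some k), false => if h : k.val + 1 < 5 then some (i, some ⟨k.val + 1, h⟩) else none
  | (i, some k), true => (step i (ltr k)).map fun j => (j, none)

/-- runs of the automaton -/
def rn : Q → List Bool → Option Q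
  | i, [] => some i
  | i, x :: l => (st i x).bind fun j => rn j l

lemma rn_append (l l' : List Bool) : ∀ i, rn i (l ++ l') = (rn i l).bind fun j => rn j l' := by
  induction l with
  | nil => intro i; rfl
  | cons x l ih =>
    intro i
    show (st i x).bind (fun j => rn j (l ++ l')) = ((st i x).bind fun j => rn j l).bind _
    rw [Option.bind_assoc]
    congr 1
    funext j
    exact ih j

lemma rn_cw : ∀ (i : Fin 7) (x : Let), rn (i, none) (cw x) = (step i x).map fun j => (j, none) := by
  decide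

lemma rn_flatMap (l : List Let) : ∀ i : Fin 7,
    rn (i, none) (l.flatMap cw) = (run i l).map fun j => (j, none) := by
  induction l with
  | nil => intro i; rfl
  | cons x l ih =>
    intro i
    rw [List.flatMap_cons, rn_append, rn_cw]
    show ((step i x).map fun j => ((j, none) : Q)).bind (fun j => rn j (l.flatMap cw)) =
      ((step i x).bind fun j => run j l).map _
    cases h : step i x with
    | none => rfl
    | some j => exact ih j

lemma rn_five : ∀ (i : Q) (x : Bool), rn i [x, x, x, x, x] = none := by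
  decide

/-- transition matrices -/
def N2 (x : Bool) : Matrix Q Q ℚ := Matrix.of fun i j => if st i x = some j then 1 else 0

lemma N2_prod (l : List Bool) (i j : Q) :
    (l.map N2).prod i j = if rn i l = some j then 1 else 0 := by
  induction l generalizing i with
  | nil =>
    simp [rn, Matrix.one_apply]
  | cons x l ih =>
    rw [List.map_cons, List.prod_cons, Matrix.mul_apply]
    simp only [ih, N2, Matrix.of_apply, rn]
    obtain ⟨o, ho⟩ : ∃ o, st i x = o := ⟨_, rfl⟩
    simp only [ho]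
    cases o with
    | none => simp
    | some k =>
      simp only [Option.bind_some]
      rw [Finset.sum_eq_single k]
      · simp
      · intro k' _ hk'
        have : ¬ (some k = some k') := by
          intro h; exact hk' (Option.some.inj h).symm
        simp [this]
      · simp

lemma N2_five (x : Bool) : N2 x ^ 5 = 0 := by
  have h : N2 x ^ 5 = ([x, x, x, x, x].map N2).prod := by
    simp [pow_succ, mul_assoc]
  rw [h]
  ext i j
  rw [N2_prod, rn_five]
  simp

/-- over `ℚ[s]` -/
noncomputable def NC2 (x : Bool) : Matrix Q Q OO := (Polynomial.C : ℚ →+* OO).mapMatrix (N2 x)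

lemma NC2_five (x : Bool) : NC2 x ^ 5 = 0 := by
  rw [NC2, ← map_pow, N2_five, map_zero]

noncomputable def cc : Matrix Q Q OO := (Polynomial.X : OO) • 1

noncomputable def R2 (x : Bool) : Matrix Q Q OO := cc + NC2 x

noncomputable def R2' (x : Bool) : Matrix Q Q OO :=
  ∑ i ∈ Finset.range 5, cc ^ i * (-NC2 x) ^ (5 - 1 - i)

lemma cc_comm (M : Matrix Q Q OO) : Commute cc M := (Commute.one_left M).smul_left _

lemma cc_five : cc ^ 5 = (Polynomial.X ^ 5 : OO) • (1 : Matrix Q Q OO) := by
  rw [cc, smul_pow, one_pow]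

lemma R2_mul (x : Bool) : R2 x * R2' x = (Polynomial.X ^ 5 : OO) • 1 := by
  have h1 : R2 x = cc - (-NC2 x) := by rw [R2, sub_neg_eq_add]
  rw [h1, R2', (cc_comm _).mul_geom_sum₂ 5, Odd.neg_pow (⟨2, rfl⟩ : Odd 5) (NC2 x), NC2_five, neg_zero, sub_zero,
    cc_five]

lemma R2'_mul (x : Bool) : R2' x * R2 x = (Polynomial.X ^ 5 : OO) • 1 := by
  have h1 : R2 x = cc - (-NC2 x) := by rw [R2, sub_neg_eq_add]
  rw [h1, R2', (cc_comm _).geom_sum₂_mul 5, Odd.neg_pow (⟨2, rfl⟩ : Odd 5) (NC2 x), NC2_five, neg_zero, sub_zero,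
    cc_five]

lemma R2_ev0 (x : Bool) : ev0.mapMatrix (R2 x) = N2 x := by
  ext i j
  simp only [R2, cc, NC2, ev0, RingHom.mapMatrix_apply, Matrix.map_apply, Matrix.add_apply,
    Matrix.smul_apply, Matrix.one_apply, map_add]
  split_ifs <;> simp

/-- extension of scalars -/
noncomputable abbrev ιQ : Matrix Q Q OO →+* Matrix Q Q KK := (algebraMap OO KK).mapMatrix

noncomputable def xh : KK := algebraMap OO KK Polynomial.X

lemma xh_ne : xh ≠ 0 := by
  rw [xh, Ne, map_eq_zero_iff _ (IsFractionRing.injective OO KK)]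
  exact Polynomial.X_ne_zero

lemma ιQ_smul (k : ℕ) (M : Matrix Q Q OO) : ιQ ((Polynomial.X ^ k : OO) • M) = xh ^ k • ιQ M := by
  ext i j
  simp [xh]

lemma ev0_smul {k : ℕ} (hk : k ≠ 0) (M : Matrix Q Q OO) :
    ev0.mapMatrix ((Polynomial.X ^ k : OO) • M) = 0 := by
  ext i j
  simp [ev0, hk]

/-- weights -/
def wt (x : Bool) : ℕ := if x then 9 else 0

/-- the invertible matrix of a letter -/
noncomputable def unit2 (x : Bool) : (Matrix Q Q KK)ˣ where
  val := (xh ^ wt x)⁻¹ • ιQ (R2 x)
  inv := (xh ^ wt x * (xh ^ 5)⁻¹) • ιQ (R2' x)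
  val_inv := by
    have h1 : xh ^ wt x ≠ 0 := pow_ne_zero _ xh_ne
    have h2 : xh ^ 5 ≠ 0 := pow_ne_zero _ xh_ne
    rw [smul_mul_smul_comm, ← map_mul, R2_mul, ιQ_smul, map_one, smul_smul]
    have : (xh ^ wt x)⁻¹ * (xh ^ wt x * (xh ^ 5)⁻¹) * xh ^ 5 = 1 := by
      rw [← mul_assoc, inv_mul_cancel₀ h1, one_mul, inv_mul_cancel₀ h2]
    rw [this, one_smul]
  inv_val := by
    have h1 : xh ^ wt x ≠ 0 := pow_ne_zero _ xh_ne
    have h2 : xh ^ 5 ≠ 0 := pow_ne_zero _ xh_ne
    rw [smul_mul_smul_comm, ← map_mul, R2'_mul, ιQ_smul, map_one, smul_smul]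
    have : (xh ^ wt x * (xh ^ 5)⁻¹) * (xh ^ wt x)⁻¹ * xh ^ 5 = 1 := by
      rw [mul_comm (xh ^ wt x), mul_assoc _ (xh ^ wt x), mul_inv_cancel₀ h1, mul_one,
        inv_mul_cancel₀ h2]
    rw [this, one_smul]

noncomputable def rho2 : FreeGroup Bool →* Matrix Q Q KK :=
  (Units.coeHom _).comp (FreeGroup.lift unit2)

lemma rho2_of (x : Bool) : rho2 (FreeGroup.of x) = (xh ^ wt x)⁻¹ • ιQ (R2 x) := by
  rw [rho2, MonoidHom.comp_apply, FreeGroup.lift_apply_of]
  rfl

lemma rho2_of_inv (x : Bool) :
    rho2 (FreeGroup.of x)⁻¹ = (xh ^ wt x * (xh ^ 5)⁻¹) • ιQ (R2' x) := by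
  rw [rho2, MonoidHom.comp_apply, map_inv, FreeGroup.lift_apply_of]
  rfl

/-- weight of a word -/
def Wt (l : List Bool) : ℕ := (l.map wt).sum

/-- the inverse matrices in the reverse order -/
noncomputable def P2' : List Bool → Matrix Q Q OO
  | [] => 1
  | x :: l => P2' l * R2' x

lemma rho2_pw (l : List Bool) : xh ^ Wt l • rho2 (pw l) = ιQ (l.map R2).prod := by
  induction l with
  | nil => simp [Wt, pw_nil]
  | cons x l ih =>
    have h1 : xh ^ wt x ≠ 0 := pow_ne_zero _ xh_ne
    have h2 : xh ^ wt x • rho2 (FreeGroup.of x) = ιQ (R2 x) := by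
      rw [rho2_of, smul_smul, mul_inv_cancel₀ h1, one_smul]
    rw [pw_cons, map_mul, List.map_cons, List.prod_cons, map_mul, ← ih, ← h2,
      smul_mul_smul_comm, ← pow_add]
    rfl

lemma rho2_pw_inv (l : List Bool) :
    xh ^ (5 * l.length) • rho2 (pw l)⁻¹ = xh ^ Wt l • ιQ (P2' l) := by
  induction l with
  | nil => simp [Wt, pw_nil, P2']
  | cons x l ih =>
    have h1 : xh ^ 5 ≠ 0 := pow_ne_zero _ xh_ne
    have h2 : xh ^ 5 • rho2 (FreeGroup.of x)⁻¹ = xh ^ wt x • ιQ (R2' x) := by
      rw [rho2_of_inv, smul_smul]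
      congr 1
      rw [mul_comm (xh ^ wt x), ← mul_assoc, mul_inv_cancel₀ h1, one_mul]
    have h3 : xh ^ (5 * (x :: l).length) = xh ^ (5 * l.length) * xh ^ 5 := by
      rw [← pow_add, List.length_cons]
      congr 1
    have h4 : xh ^ Wt (x :: l) = xh ^ Wt l * xh ^ wt x := by
      rw [← pow_add]
      congr 1
      show wt x + Wt l = _
      omega
    rw [pw_cons, mul_inv_rev, map_mul, h3, h4, P2', map_mul, ← smul_mul_smul_comm, ih, h2,
      smul_mul_smul_comm]

/-- `z` is small: the matrix of `z` times `s ^ 18` vanishes at `s = 0` -/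
def Small (u : FreeGroup Bool) : Prop :=
  ∃ T : Matrix Q Q OO, ιQ T = xh ^ 18 • rho2 u ∧ ev0.mapMatrix T = 0

lemma small_pw (l : List Bool) (h : Wt l < 18) : Small (pw l) := by
  refine ⟨(Polynomial.X ^ (18 - Wt l) : OO) • (l.map R2).prod, ?_, ev0_smul (by omega) _⟩
  rw [ιQ_smul, ← rho2_pw, smul_smul, ← pow_add]
  congr 2
  omega

lemma small_pw_inv (l : List Bool) (h : 5 * l.length < 18 + Wt l) : Small (pw l)⁻¹ := by
  refine ⟨(Polynomial.X ^ (18 + Wt l - 5 * l.length) : OO) • P2' l, ?_, ev0_smul (by omega) _⟩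
  have h1 : xh ^ (5 * l.length) ≠ 0 := pow_ne_zero _ xh_ne
  have h2 : Function.Injective fun M : Matrix Q Q KK => xh ^ (5 * l.length) • M :=
    smul_right_injective _ h1
  apply h2
  show xh ^ (5 * l.length) • _ = xh ^ (5 * l.length) • _
  rw [ιQ_smul, smul_comm _ (xh ^ 18), rho2_pw_inv, smul_smul, smul_smul, ← pow_add, ← pow_add]
  congr 2
  omega

/-- first coordinates of the ten elements -/
def U2 (g : Gen) : List Bool := (U g).flatMap cw

lemma U2_wt (g : Gen) : Wt (U2 g) = 18 := by
  rcases g with _ | _ | _ | _ | _ | _ | (_ | _) | (_ | _) <;> rfl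

lemma U2_length (g : Gen) : (U2 g).length ≤ 7 := by
  rcases g with _ | _ | _ | _ | _ | _ | (_ | _) | (_ | _) <;> decide

lemma small_gen_inv (g : Gen) : Small (pw (U2 g))⁻¹ := by
  apply small_pw_inv
  have h1 := U2_wt g
  have h2 := U2_length g
  omega

lemma gen_T (g : Gen) : ιQ ((U2 g).map R2).prod = xh ^ 18 • rho2 (pw (U2 g)) := by
  rw [← rho2_pw, U2_wt]

/-- the homomorphism of free groups given by the code -/
def kap2 : FreeGroup Let →* FreeGroup Bool := FreeGroup.lift fun x => pw (cw x)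

lemma kap2_pw (l : List Let) : kap2 (pw l) = pw (l.flatMap cw) := by
  induction l with
  | nil => rw [pw_nil, map_one]; rfl
  | cons x l ih =>
    rw [pw_cons, map_mul, ih, List.flatMap_cons, pw_append, kap2, FreeGroup.lift_apply_of]

/-- the group `F₂ × F₂` -/
abbrev G22 := FreeGroup Bool × FreeGroup Bool

/-- `F₆ × F₂ → F₂ × F₂` -/
def K2 : GG →* G22 := MonoidHom.prodMap kap2 (MonoidHom.id _)

lemma K2_prod (γ : List Gen) : K2 (γ.map genEl).prod =
    (pw ((γ.flatMap U).flatMap cw), pw (γ.flatMap V)) := by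
  rw [prod_genEl]
  exact Prod.ext (kap2_pw _) rfl

lemma K2_gen (g : Gen) : K2 (genEl g) = (pw (U2 g), pw (V g)) :=
  Prod.ext (kap2_pw _) rfl

/-- the homomorphism to `ℤ` -/
def chi2 : FreeGroup Bool →* Multiplicative ℤ :=
  FreeGroup.lift fun x => Multiplicative.ofAdd (wt x : ℤ)

/-- additive version -/
def ch2 (g : G22) : ℤ := Multiplicative.toAdd (chi2 g.1)

lemma ch2_mul (g h : G22) : ch2 (g * h) = ch2 g + ch2 h := by
  simp [ch2]

lemma chi2_pw (l : List Bool) : Multiplicative.toAdd (chi2 (pw l)) = (Wt l : ℤ) := by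
  induction l with
  | nil => simp [pw_nil, Wt]
  | cons x l ih =>
    rw [pw_cons, map_mul, toAdd_mul, ih, chi2, FreeGroup.lift_apply_of, toAdd_ofAdd]
    show (wt x : ℤ) + (Wt l : ℤ) = ((wt x + Wt l : ℕ) : ℤ)
    push_cast
    ring

lemma ch2_gen (g : Gen) : ch2 (K2 (genEl g)) = 18 := by
  rw [K2_gen]
  show Multiplicative.toAdd (chi2 (pw (U2 g))) = 18
  rw [chi2_pw, U2_wt]
  rfl

lemma ch2_prod (γ : List Gen) : ch2 (K2 (γ.map genEl).prod) = 18 * γ.length := by
  induction γ with
  | nil => simp [ch2]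
  | cons g γ ih =>
    rw [List.map_cons, List.prod_cons, map_mul, ch2_mul, ch2_gen, ih]
    push_cast [List.length_cons]
    ring

end Pool.Agent.Y502.CG
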