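import Pool.Agent.Y502.CG.Rep2

/-!
# Groups that retract onto `F₂ × F₂`

The argument of `PoolH322CG.algRel_F0` (starting library) for a group `G` with homomorphisms
`σ : F₂ × F₂ → G` and `π : G → F₂ × F₂` such that `π ∘ σ = id`; the free group `F₆` is replaced
by `F₂` with the prefix code and the representation of `Pool.Agent.Y502.CG.Rep2`.
-/

set_option autoImplicit false

namespace Pool.Agent.Y502.CG

open PoolH322CG PowerSeries

/-- a group with a retraction onto `F₂ × F₂` and an adapted finite set -/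
structure Ret2 (G : Type) [Group G] where
  π : G →* G22
  σ : G22 →* G
  sec : ∀ x, π (σ x) = x
  S : Finset G
  gen : ∀ g, σ (K2 (genEl g)) ∈ S
  small : ∀ x ∈ S, (∃ g, x = σ (K2 (genEl g))) ∨ (π x).1 = 1 ∨ ∃ c, (π x).1 = FreeGroup.of c

variable {G : Type} [Group G] (R : Ret2 G)

lemma Ret2.inj : Function.Injective R.σ := by
  intro x y h
  have := congrArg R.π h
  rwa [R.sec, R.sec] at this

/-- the representation -/
noncomputable def Phi2 : G22 →* Matrix Q Q KK := rho2.comp (MonoidHom.fst _ _)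

/-- the statement about one element -/
def Good2 (n : ℕ) (x : G) (T : Matrix Q Q OO) : Prop :=
  ιQ T = (xh ^ 18) ^ n • Phi2 (R.π x) ∧
    ((∃ γ : List Gen, γ.length = n ∧ x = R.σ (K2 (γ.map genEl).prod) ∧
      ev0.mapMatrix T = (((γ.flatMap U).flatMap cw).map N2).prod) ∨
      (ev0.mapMatrix T = 0 ∧ ch2 (R.π x) < 18 * n))

lemma good2_one : Good2 R 0 1 1 := by
  refine ⟨by simp, Or.inl ⟨[], rfl, by simp, by simp⟩⟩

lemma good2_gen (g : Gen) : Good2 R 1 (R.σ (K2 (genEl g))) ((U2 g).map R2).prod := by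
  refine ⟨?_, Or.inl ⟨[g], rfl, by simp, ?_⟩⟩
  · rw [R.sec, K2_gen, pow_one]
    exact gen_T g
  · rw [map_list_prod, List.map_map]
    have : (⇑(ev0.mapMatrix) ∘ R2) = N2 := by
      funext x
      exact R2_ev0 x
    rw [this, List.flatMap_cons, List.flatMap_nil, List.append_nil]
    rfl

lemma good2_small {x : G} (h : Small (R.π x).1) (hc : ch2 (R.π x) < 18) : ∃ T, Good2 R 1 x T := by
  obtain ⟨T, h1, h2⟩ := h
  refine ⟨T, ?_, Or.inr ⟨h2, by simpa using hc⟩⟩
  rw [pow_one]
  exact h1

lemma good2_el (x : G) (hx : x ∈ R.S ∨ x⁻¹ ∈ R.S) : ∃ T, Good2 R 1 x T := by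
  rcases hx with hx | hx
  · rcases R.small x hx with ⟨g, rfl⟩ | h | ⟨c, h⟩
    · exact ⟨_, good2_gen R g⟩
    · apply good2_small R
      · rw [h, ← pw_nil]
        exact small_pw [] (by decide)
      · simp [ch2, h]
    · have e : FreeGroup.of c = pw [c] := by simp [pw]
      apply good2_small R
      · rw [h, e]
        exact small_pw [c] (by cases c <;> decide)
      · rw [ch2, h, e, chi2_pw]
        cases c <;> decide
  · rcases R.small _ hx with ⟨g, hg⟩ | h | ⟨c, h⟩
    · have hx' : R.π x = (K2 (genEl g))⁻¹ := by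
        have := congrArg R.π hg
        rw [map_inv, R.sec] at this
        rw [← this, inv_inv]
      apply good2_small R
      · rw [hx', K2_gen]
        exact small_gen_inv g
      · rw [hx']
        have h1 := ch2_gen g
        have h2 : ch2 (K2 (genEl g))⁻¹ = - ch2 (K2 (genEl g)) := by simp [ch2]
        rw [h2, h1]
        norm_num
    · rw [map_inv] at h
      have h' : ((R.π x).1)⁻¹ = 1 := h
      have h1 := inv_eq_one.1 h'
      apply good2_small R
      · rw [h1, ← pw_nil]
        exact small_pw [] (by decide)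
      · simp [ch2, h1]
    · rw [map_inv] at h
      have h' : ((R.π x).1)⁻¹ = FreeGroup.of c := h
      have e : FreeGroup.of c = pw [c] := by simp [pw]
      have h1 : (R.π x).1 = (pw [c])⁻¹ := by rw [← e, ← h', inv_inv]
      apply good2_small R
      · rw [h1]
        exact small_pw_inv [c] (by cases c <;> decide)
      · rw [ch2, h1, map_inv, toAdd_inv, chi2_pw]
        cases c <;> decide

lemma good2_mul {x g : G} {n : ℕ} {T1 T2 : Matrix Q Q OO} (h1 : Good2 R 1 x T1)
    (h2 : Good2 R n g T2) : Good2 R (n + 1) (x * g) (T1 * T2) := by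
  obtain ⟨e1, c1⟩ := h1
  obtain ⟨e2, c2⟩ := h2
  refine ⟨?_, ?_⟩
  · rw [map_mul, e1, e2, smul_mul_smul_comm, map_mul, map_mul]
    congr 1
    ring
  · rcases c1 with ⟨γ1, hl1, hx1, ht1⟩ | ⟨ht1, hc1⟩
    · rcases c2 with ⟨γ2, hl2, hx2, ht2⟩ | ⟨ht2, hc2⟩
      · left
        refine ⟨γ1 ++ γ2, by rw [List.length_append, hl1, hl2]; ring, ?_, ?_⟩
        · rw [List.map_append, List.prod_append, map_mul, map_mul, ← hx1, ← hx2]
        · rw [List.flatMap_append, List.flatMap_append, List.map_append, List.prod_append, map_mul,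
            ht1, ht2]
      · right
        refine ⟨by rw [map_mul, ht2, mul_zero], ?_⟩
        rw [map_mul, ch2_mul, hx1, R.sec, ch2_prod, hl1]
        push_cast
        linarith
    · right
      refine ⟨by rw [map_mul, ht1, zero_mul], ?_⟩
      have hc2 : ch2 (R.π g) ≤ 18 * n := by
        rcases c2 with ⟨γ2, hl2, hx2, ht2⟩ | ⟨ht2, hc2⟩
        · rw [hx2, R.sec, ch2_prod, hl2]
        · exact hc2.le
      rw [map_mul, ch2_mul]
      push_cast at hc1 ⊢
      linarith

lemma good2_prod {n : ℕ} {g : G} (h : IsProd R.S n g) : ∃ T, Good2 R n g T := by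
  obtain ⟨l, hl, hS, rfl⟩ := h
  induction l generalizing n with
  | nil =>
    simp only [List.length_nil] at hl
    subst hl
    exact ⟨1, good2_one R⟩
  | cons x l ih =>
    obtain ⟨T2, hT2⟩ := ih (n := l.length) rfl (fun y hy => hS y (by simp [hy]))
    obtain ⟨T1, hT1⟩ := good2_el R x (hS x (by simp))
    refine ⟨T1 * T2, ?_⟩
    rw [List.prod_cons, ← hl, List.length_cons]
    exact good2_mul R hT1 hT2

lemma ch2_le {n : ℕ} {g : G} (h : IsProd R.S n g) : ch2 (R.π g) ≤ 18 * n := by
  obtain ⟨T, -, hT⟩ := good2_prod R h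
  rcases hT with ⟨γ, hl, hx, -⟩ | ⟨-, hc⟩
  · rw [hx, R.sec, ch2_prod, hl]
  · exact hc.le

/-- the matrix attached to `(n, g)` -/
noncomputable def TT2 (n : ℕ) (g : G) : Matrix Q Q OO :=
  open Classical in if h : IsProd R.S n g then (good2_prod R h).choose else 0

lemma TT2_spec {n : ℕ} {g : G} (h : IsProd R.S n g) : Good2 R n g (TT2 R n g) := by
  rw [TT2, dif_pos h]
  exact (good2_prod R h).choose_spec

/-- the accepted elements -/
def Acc2 (n : ℕ) (g : G) : Prop := ∃ y, PoolH322CG.Acc n y ∧ g = R.σ (K2 y)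

lemma K2_inj {n n' : ℕ} {y y' : GG} (hy : PoolH322CG.Acc n y) (hy' : PoolH322CG.Acc n' y')
    (h : K2 y = K2 y') : y = y' := by
  obtain ⟨γ, -, h1, -⟩ := hy
  obtain ⟨γ', -, h2, -⟩ := hy'
  rw [← h1, ← h2, K2_prod, K2_prod] at h
  obtain ⟨h3, h4⟩ := Prod.mk.inj h
  have h5 := cw_inj _ _ (pw_injective h3)
  rw [← h1, ← h2, prod_genEl, prod_genEl, h5, h4]

open Classical in
lemma TT2_ev0 {n : ℕ} {g : G} (h : IsProd R.S n g) :
    ev0 (TT2 R n g (0, none) (6, none)) = if Acc2 R n g then 1 else 0 := by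
  obtain ⟨-, hT⟩ := TT2_spec R h
  have h0 : ev0 (TT2 R n g (0, none) (6, none)) =
    (ev0.mapMatrix (TT2 R n g)) (0, none) (6, none) := rfl
  rcases hT with ⟨γ, hl, hx, ht⟩ | ⟨ht, hc⟩
  · rw [h0, ht, N2_prod, rn_flatMap]
    by_cases hr : run 0 (γ.flatMap U) = some 6
    · have hacc : Acc2 R n g := ⟨_, ⟨γ, hl, rfl, hr⟩, hx⟩
      rw [hr, if_pos hacc]
      exact if_pos rfl
    · rw [if_neg, if_neg]
      · rintro ⟨y, ⟨γ', hl', hx', hr'⟩, hy⟩
        have hxy := R.inj (hx.symm.trans hy)
        rw [← hx', K2_prod, K2_prod] at hxy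
        have := cw_inj _ _ (pw_injective (Prod.mk.inj hxy).1)
        rw [← this] at hr'
        exact hr hr'
      · intro hcon
        apply hr
        cases h' : run 0 (γ.flatMap U) with
        | none =>
          rw [h'] at hcon
          exact absurd hcon (by simp)
        | some j =>
          rw [h'] at hcon
          simp only [Option.map_some, Option.some.injEq, Prod.mk.injEq, and_true] at hcon
          rw [hcon]
  · rw [h0, ht, if_neg]
    · rfl
    · rintro ⟨y, ⟨γ', hl', hx', hr'⟩, hy⟩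
      rw [hy, R.sec, ← hx', ch2_prod, hl'] at hc
      exact lt_irrefl _ hc

lemma acc2_sphere {n : ℕ} {g : G} (h : Acc2 R n g) : g ∈ sphere R.S n := by
  obtain ⟨y, ⟨γ, hl, hx, -⟩, hy⟩ := h
  refine ⟨⟨γ.map fun c => R.σ (K2 (genEl c)), by simpa using hl, ?_, ?_⟩, ?_⟩
  · intro x hx
    rw [List.mem_map] at hx
    obtain ⟨g, -, rfl⟩ := hx
    exact Or.inl (R.gen g)
  · rw [hy, ← hx, map_list_prod, map_list_prod, List.map_map, List.map_map]
    rfl
  · intro k hk hcon
    have h1 := ch2_le R hcon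
    rw [hy, R.sec, ← hx, ch2_prod, hl] at h1
    omega

/-- the series over `ℚ[s]` -/
noncomputable def FO2 : OO⟦X⟧ :=
  PowerSeries.mk fun n => ∑ g ∈ (sphere_finite R.S n).toFinset, TT2 R n g (0, none) (6, none)

/-- the group ring representation -/
noncomputable def PhiHat2 : MonoidAlgebra ℤ G →+* Matrix Q Q KK :=
  (MonoidAlgebra.lift ℤ (Matrix Q Q KK) G (Phi2.comp R.π)).toRingHom

lemma PhiHat2_of (g : G) : PhiHat2 R (MonoidAlgebra.of ℤ G g) = Phi2 (R.π g) := by
  have h : PhiHat2 R (MonoidAlgebra.of ℤ G g) =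
    MonoidAlgebra.lift ℤ (Matrix Q Q KK) G (Phi2.comp R.π) (MonoidAlgebra.of ℤ G g) := rfl
  rw [h, MonoidAlgebra.lift_of]
  rfl

lemma Psi2_CG : Psi (PhiHat2 R) (xh ^ 18) (CG R.S) (0, none) (6, none) =
    PowerSeries.map (algebraMap OO KK) (FO2 R) := by
  ext n
  rw [Psi_coeff, coeff_CG, PowerSeries.coeff_map, FO2, PowerSeries.coeff_mk, map_sum, map_sum,
    Matrix.sum_apply, Finset.mul_sum]
  refine Finset.sum_congr rfl fun g hg => ?_
  rw [PhiHat2_of]
  have hg' : g ∈ sphere R.S n := by simpa using hg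
  have h1 := congrFun (congrFun (TT2_spec R hg'.1).1 (0, none)) (6, none)
  have h2 : ((xh ^ 18) ^ n • Phi2 (R.π g)) (0, none) (6, none) =
    (xh ^ 18) ^ n * (Phi2 (R.π g)) (0, none) (6, none) := rfl
  rw [h2] at h1
  exact h1.symm

lemma acc2_ncard (n : ℕ) : {g | Acc2 R n g}.ncard = {g | PoolH322CG.Acc n g}.ncard := by
  have e : {g | Acc2 R n g} = (fun y => R.σ (K2 y)) '' {g | PoolH322CG.Acc n g} := by
    ext g
    constructor
    · rintro ⟨y, h1, h2⟩
      exact ⟨y, h1, h2.symm⟩
    · rintro ⟨y, h1, h2⟩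
      exact ⟨y, h1, h2.symm⟩
  rw [e]
  exact Set.InjOn.ncard_image fun y hy y' hy' h => K2_inj hy hy' (R.inj h)

lemma acc2_finite (n : ℕ) : {g | Acc2 R n g}.Finite :=
  (sphere_finite R.S n).subset fun _ h => acc2_sphere R h

theorem algRel2 (h : IsAlg (CG R.S)) :
    AlgRel (PowerSeries.mk fun n => (({g | PoolH322CG.Acc n g}.ncard : ℕ) : ℚ)) := by
  classical
  have h1 := alg_of_isAlg (PhiHat2 R) (xh ^ 18) (CG R.S) h (0, none) (6, none)
  rw [Psi2_CG] at h1
  have h2 := algRel_specialize (FO2 R) h1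
  have h3 : PowerSeries.map (Polynomial.evalRingHom (0 : ℚ)) (FO2 R) =
      PowerSeries.mk fun n => (({g | PoolH322CG.Acc n g}.ncard : ℕ) : ℚ) := by
    ext n
    rw [PowerSeries.coeff_map, PowerSeries.coeff_mk, FO2, PowerSeries.coeff_mk, map_sum]
    have h4 : ∑ g ∈ (sphere_finite R.S n).toFinset,
        (Polynomial.evalRingHom (0 : ℚ)) (TT2 R n g (0, none) (6, none)) =
        ∑ g ∈ (sphere_finite R.S n).toFinset, if Acc2 R n g then (1 : ℚ) else 0 := by
      refine Finset.sum_congr rfl fun g hg => ?_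
      have hg' : g ∈ sphere R.S n := by simpa using hg
      exact TT2_ev0 R hg'.1
    rw [h4, Finset.sum_boole, ← acc2_ncard R]
    congr 1
    rw [Set.ncard_eq_toFinset_card _ (acc2_finite R n)]
    congr 1
    ext g
    simp only [Finset.mem_filter, Set.Finite.mem_toFinset]
    constructor
    · rintro ⟨-, h⟩; exact h
    · intro h; exact ⟨acc2_sphere R h, h⟩
  rw [h3] at h2
  exact h2

/-- the counting series is not algebraic (the proof of `PoolH322CG.not_isAlg_S2`) -/
theorem not_algRel2 :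
    ¬ AlgRel (PowerSeries.mk fun n => (({g | PoolH322CG.Acc n g}.ncard : ℕ) : ℚ)) := by
  classical
  intro h
  have h1 := isAlgebraic_of_algRel h
  set f : ℚ⟦X⟧ := PowerSeries.mk fun n => (({g | PoolH322CG.Acc n g}.ncard : ℕ) : ℚ) with hf
  have h2 : gS = (PowerSeries.mk fun n => (2 : ℚ) ^ n) - (PowerSeries.mk fun n => (1 : ℚ) ^ n) -
      (PowerSeries.mk fun n => (1 : ℚ) ^ n) + 1 + X - f := by
    ext n
    rw [map_sub, map_add, map_add, map_sub, map_sub, PowerSeries.coeff_mk, PowerSeries.coeff_mk,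
      PowerSeries.coeff_one, PowerSeries.coeff_X, gS, hf, PowerSeries.coeff_mk, PowerSeries.coeff_mk]
    match n with
    | 0 =>
      rw [ncard_acc_small 0 (by norm_num), if_neg]
      · norm_num
      · rintro ⟨k, hk⟩
        have : 0 < 2 ^ k := by positivity
        omega
    | 1 =>
      rw [ncard_acc_small 1 (by norm_num), if_pos ⟨0, rfl⟩]
      norm_num
    | k + 2 =>
      have h3 := ncard_acc k
      have h4 : (∃ j : ℕ, k + 2 = 2 ^ (j + 1)) ↔ (∃ j : ℕ, k + 2 = 2 ^ j) := by
        constructor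
        · rintro ⟨j, hj⟩; exact ⟨j + 1, hj⟩
        · rintro ⟨j, hj⟩
          cases j with
          | zero => simp at hj
          | succ j => exact ⟨j, hj⟩
      have h5 : (({g | PoolH322CG.Acc (k + 2) g}.ncard : ℕ) : ℚ) =
          2 ^ (k + 2) - 2 - if ∃ j : ℕ, k + 2 = 2 ^ j then 1 else 0 := by
        have h6 : ((({g | PoolH322CG.Acc (k + 2) g}.ncard : ℕ) : ℤ) : ℚ) = _ :=
          congrArg (fun z : ℤ => (z : ℚ)) h3
        rw [Int.cast_natCast] at h6
        rw [h6]
        simp only [h4]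
        push_cast
        split_ifs <;> simp
      rw [h5, if_neg (by omega : ¬ (k + 2 = 0)), if_neg (by omega : ¬ (k + 2 = 1))]
      ring
  apply gS_not_algebraic
  rw [h2]
  have hX : IsAlgebraic (Polynomial ℚ) (X : ℚ⟦X⟧) := by
    have := isAlgebraic_algebraMap (R := Polynomial ℚ) (A := ℚ⟦X⟧) (Polynomial.X)
    have h3 : algebraMap (Polynomial ℚ) ℚ⟦X⟧ Polynomial.X = X := by
      show ((Polynomial.X : Polynomial ℚ) : ℚ⟦X⟧) = X
      exact Polynomial.coe_X
    rwa [h3] at this
  exact ((((((alg_geom 2).sub (alg_geom 1)).sub (alg_geom 1)).add isAlgebraic_one).add hX).sub h1)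

theorem Ret2.not_isAlg : ¬ IsAlg (CG R.S) := fun h => not_algRel2 (algRel2 R h)

/-- Every finitely generated group which retracts onto `F₂ × F₂` has a finite generating set with
transcendental complete growth series. -/
theorem exists_transcendental2 (A : Finset G) (hA : Subgroup.closure (A : Set G) = ⊤)
    (π : G →* G22) (σ : G22 →* G) (sec : ∀ x, π (σ x) = x) :
    ∃ S : Finset G, Subgroup.closure (S : Set G) = ⊤ ∧ ¬ IsAlg (CG S) := by
  classical
  let B : Finset G22 := pset (fset Bool) (fset Bool)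
  have hB : Subgroup.closure (B : Set G22) = ⊤ := closure_pset (closure_fset Bool) (closure_fset Bool)
  let S : Finset G := (Finset.univ.image fun g => σ (K2 (genEl g))) ∪ B.image σ ∪
    A.image (fun a => a * (σ (π a))⁻¹)
  refine ⟨S, ?_, ?_⟩
  · have h1 : ∀ y : G22, σ y ∈ Subgroup.closure (S : Set G) := by
      intro y
      have h2 : (⊤ : Subgroup G22) ≤ (Subgroup.closure (S : Set G)).comap σ := by
        rw [← hB, Subgroup.closure_le]
        intro z hz
        apply Subgroup.subset_closure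
        exact Finset.mem_union_left _ (Finset.mem_union_right _ (Finset.mem_image_of_mem σ hz))
      exact h2 (Subgroup.mem_top y)
    rw [eq_top_iff, ← hA, Subgroup.closure_le]
    intro a ha
    have h2 : a * (σ (π a))⁻¹ ∈ Subgroup.closure (S : Set G) := by
      apply Subgroup.subset_closure
      exact Finset.mem_union_right _ (Finset.mem_image_of_mem _ ha)
    have h3 := (Subgroup.closure (S : Set G)).mul_mem h2 (h1 (π a))
    rwa [inv_mul_cancel_right] at h3
  · let R : Ret2 G :=
      { π := π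
        σ := σ
        sec := sec
        S := S
        gen := fun g => Finset.mem_union_left _ (Finset.mem_union_left _
          (Finset.mem_image.2 ⟨g, Finset.mem_univ _, rfl⟩))
        small := fun x hx => by
          rcases Finset.mem_union.1 hx with hx | hx
          · rcases Finset.mem_union.1 hx with hx | hx
            · obtain ⟨g, -, rfl⟩ := Finset.mem_image.1 hx
              exact Or.inl ⟨g, rfl⟩
            · obtain ⟨z, hz, rfl⟩ := Finset.mem_image.1 hx
              right
              rw [sec]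
              rcases mem_pset.1 hz with ⟨h1, -⟩ | ⟨h1, -⟩
              · right
                rw [fset, Finset.mem_image] at h1
                obtain ⟨c, -, hc⟩ := h1
                exact ⟨c, hc.symm⟩
              · exact Or.inl h1
          · obtain ⟨a, -, rfl⟩ := Finset.mem_image.1 hx
            right; left
            rw [map_mul, map_inv, sec, mul_inv_cancel]
            rfl }
    exact R.not_isAlg

end Pool.Agent.Y502.CG
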